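import Pool.Agent.W163.P3.CFin

set_option autoImplicit false
open Finset

namespace Pool.Agent.W163.P3

theorem pi_le (hcert : S_CERT) (hclose : S_CLOSE) (hvert : S_VERT) (hend : S_END)
    (h1 : S_L1) (h2 : S_L2) (h3 : S_L3) (hT : S_T) (hC0 : S_C0) (hEXT : S_EXT) (hPROD : S_PROD)
    (ra1 : S_RA1) (ra2 : S_RA2) (ra3 : S_RA3) (ra4 : S_RA4) (rc0 : S_RC0) : PI ≤ 2 / 5 := by
  by_contra hcon
  push Not at hcon
  have hpi1 : PI ≤ 1 := hPROD.1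
  set e : ℝ := min (1 / 10 ^ 7) ((PI - 2 / 5) / 4) with he
  have e0 : 0 < e := lt_min (by norm_num) (by linarith)
  have e1 : e ≤ 1 / 10 ^ 7 := min_le_left _ _
  have e2 : 4 * e ≤ PI - 2 / 5 := by
    have : e ≤ (PI - 2 / 5) / 4 := min_le_right _ _
    linarith
  obtain ⟨n, hn, r, hE⟩ := hEXT e e0
  have hc : 0 < Fintype.card (Fin n) := by simpa using hn
  obtain ⟨a, b, c, h⟩ := hcert (Fin n) r PI e hE hcon.le e1 hc
  have hcl := hclose hC0 rc0 (Fin n) r PI e (qr r a b c) hE hcon.le hpi1 e0.le e1 hc h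
  have hf := hvert h1 h2 h3 ra1 ra2 ra3 ra4 (Fin n) r PI e (qr r a b c) hE hcon.le e0.le e1 hc hcl
  exact hend hT (Fin n) r PI e (qr r a b c) hE hcon hpi1 e0.le e1 e2 hc hcl hf

theorem main_nat (hPROD : S_PROD) (hpi : PI ≤ 2 / 5) :
    ∀ (n : ℕ) (r : Fin n → Fin n → ℕ), 0 < n → Ori r → 5 * TS r univ + 2 * n ≤ 2 * n ^ 3 := by
  intro n r hn h
  have h1 := hPROD.2 n r hn h
  have hn1 : (1 : ℝ) ≤ (n : ℝ) := by exact_mod_cast hn
  have h3 : (0 : ℝ) ≤ (n : ℝ) ^ 3 - n := by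
    have : (n : ℝ) ^ 3 - n = n * (n - 1) * (n + 1) := by ring
    rw [this]
    have := sub_nonneg.mpr hn1
    positivity
  have h4 : (TS r univ : ℝ) ≤ 2 / 5 * ((n : ℝ) ^ 3 - n) :=
    h1.trans (mul_le_mul_of_nonneg_right hpi h3)
  have h5 : (5 : ℝ) * (TS r univ : ℝ) + 2 * n ≤ 2 * (n : ℝ) ^ 3 := by linarith
  exact_mod_cast h5

end Pool.Agent.W163.P3
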