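import Mathlib

set_option autoImplicit false

namespace Pool.Agent.W163.P3

/-- linear part -/
def LIN (y1 y2 y3 p1 p2 p3 d12 d13 d21 d23 d31 d32 : ℝ) : ℝ :=
  -2 * ((d12 + d13) * (y2 + y3 - y1) + (d21 + d23) * (y1 + y3 - y2) + (d31 + d32) * (y1 + y2 - y3))
  + 2 * (p1 * (d21 + d31) + p2 * (d12 + d32) + p3 * (d13 + d23))

/-- quadratic part -/
def QQ (d12 d13 d21 d23 d31 d32 : ℝ) : ℝ :=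
  (d12 + d13 + d21 + d23 + d31 + d32) ^ 2
  - 2 * ((d12 + d13) ^ 2 + (d21 + d23) ^ 2 + (d31 + d32) ^ 2)
  + (d21 + d31) ^ 2 + (d12 + d32) ^ 2 + (d13 + d23) ^ 2
  - 2 * (d12 ^ 2 + d13 ^ 2 + d21 ^ 2 + d23 ^ 2 + d31 ^ 2 + d32 ^ 2)

/-- hypotheses at one vertex (normalized), label 0 is the best label -/
structure RHyp (y0 y1 y2 y3 p1 p2 p3 d12 d13 d21 d23 d31 d32 f th e : ℝ) : Prop where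
  hy0 : 0 ≤ y0
  hy1 : 0 ≤ y1
  hy2 : 0 ≤ y2
  hy3 : 0 ≤ y3
  hp1 : 0 ≤ p1
  hp2 : 0 ≤ p2
  hp3 : 0 ≤ p3
  h12 : 0 ≤ d12
  h13 : 0 ≤ d13
  h21 : 0 ≤ d21
  h23 : 0 ≤ d23
  h31 : 0 ≤ d31
  h32 : 0 ≤ d32
  hf : 0 ≤ f
  hth : 0 ≤ th
  he : 0 ≤ e
  he' : e ≤ 1 / 10 ^ 6
  hsum : y0 + y1 + y2 + y3 = 1 - th
  hp : p1 + p2 + p3 = y0
  hd1 : d12 + d13 ≤ y1
  hd2 : d21 + d23 ≤ y2
  hd3 : d31 + d32 ≤ y3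
  hC : 2 * f + 2 * th + 6 * (4 * (y0 ^ 2 + y1 ^ 2 + y2 ^ 2 + y3 ^ 2) - (1 - th) ^ 2) ≤ 292 / 100000
  hm1 : (d12 + d13 + d21 + d23 + d31 + d32) ≤ 1 - th - y1 - (p1 + d21 + d31)
  hm2 : (d12 + d13 + d21 + d23 + d31 + d32) ≤ 1 - th - y2 - (p2 + d12 + d32)
  hm3 : (d12 + d13 + d21 + d23 + d31 + d32) ≤ 1 - th - y3 - (p3 + d13 + d23)
  hS : 2 / 5 - e ≤ f + 2 * th +
    ((y1 + y2 + y3 - (d12 + d13 + d21 + d23 + d31 + d32)) ^ 2 + (p1 + d21 + d31) ^ 2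
      + (p2 + d12 + d32) ^ 2 + (p3 + d13 + d23) ^ 2) / 3 + (y0 ^ 2 + y1 ^ 2 + y2 ^ 2 + y3 ^ 2)
  hIa : 0 ≤ e + 2 * f + 2 * th +
    (y0 ^ 2 + 2 * (y1 * y2 + y1 * y3 + y2 * y3) - 2 / 5 - (p1 ^ 2 + p2 ^ 2 + p3 ^ 2))
    + LIN y1 y2 y3 p1 p2 p3 d12 d13 d21 d23 d31 d32 + QQ d12 d13 d21 d23 d31 d32
  hIb : 0 ≤ e + 2 * f + 2 * th
    + LIN y1 y2 y3 p1 p2 p3 d12 d13 d21 d23 d31 d32 + QQ d12 d13 d21 d23 d31 d32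

/-- step 1 -/
def S_RA1 : Prop := ∀ y0 y1 y2 y3 p1 p2 p3 d12 d13 d21 d23 d31 d32 f th e : ℝ,
  RHyp y0 y1 y2 y3 p1 p2 p3 d12 d13 d21 d23 d31 d32 f th e →
  d12 + d13 + d21 + d23 + d31 + d32 ≤ 35 / 100

/-- step 2 -/
def S_RA2 : Prop := ∀ y0 y1 y2 y3 p1 p2 p3 d12 d13 d21 d23 d31 d32 f th e : ℝ,
  RHyp y0 y1 y2 y3 p1 p2 p3 d12 d13 d21 d23 d31 d32 f th e →
  d12 + d13 + d21 + d23 + d31 + d32 ≤ 35 / 100 →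
  d12 + d13 + d21 + d23 + d31 + d32 ≤ 13 / 100

/-- step 3 -/
def S_RA3 : Prop := ∀ y0 y1 y2 y3 p1 p2 p3 d12 d13 d21 d23 d31 d32 f th e : ℝ,
  RHyp y0 y1 y2 y3 p1 p2 p3 d12 d13 d21 d23 d31 d32 f th e →
  d12 + d13 + d21 + d23 + d31 + d32 ≤ 13 / 100 →
  d12 + d13 + d21 + d23 + d31 + d32 ≤ 3 / 100

/-- step 4 -/
def S_RA4 : Prop := ∀ y0 y1 y2 y3 p1 p2 p3 d12 d13 d21 d23 d31 d32 f th e : ℝ,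
  RHyp y0 y1 y2 y3 p1 p2 p3 d12 d13 d21 d23 d31 d32 f th e →
  d12 + d13 + d21 + d23 + d31 + d32 ≤ 3 / 100 →
  p1 + (d12 + d13 + d21 + d23 + d31 + d32) ≤ 235 / 1000 ∧
  p2 + (d12 + d13 + d21 + d23 + d31 + d32) ≤ 235 / 1000 ∧
  p3 + (d12 + d13 + d21 + d23 + d31 + d32) ≤ 235 / 1000

/-- closeness after removing the uniform and bad vertices -/
def S_RC0 : Prop := ∀ p e u b f F s th y : ℝ, 2 / 5 ≤ p → p ≤ 1 → 0 ≤ e → e ≤ 1 / 10 ^ 7 →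
  0 ≤ u → 0 ≤ b → 0 ≤ f → 0 ≤ F → 0 ≤ s → th = u + b → y = 1 - th → 0 ≤ y →
  10 * u + 4920 * b + 4800 * f + 24480 * F + 14400 * s ≤ 7 →
  3 * (p - e) * y ≤ 3 * p * y ^ 3 + 12 * y * F + 6 * b * (p + e) + 2 * y * th ^ 2 →
  2 * f + 2 * th + 6 * s ≤ 292 / 100000

end Pool.Agent.W163.P3
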