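import Pool.Agent.W131.P3.C0
import Pool.Agent.W131.P3.Ext
import Pool.Agent.W346.P3.Prod
import Pool.Agent.W346.P3.L123
import Pool.Agent.W577.P3.T
import Pool.Agent.W577.P3.RA3
import Pool.Agent.W591.P3.RA4
import Pool.Agent.W45.P3.RA1
import Pool.Agent.W563.P3.RA2
import Pool.Agent.W320.P3.RC0
import Pool.Agent.W45.P3.CLOSE
import Pool.Agent.W310.P3.Psd
import Pool.Agent.W427.P3.Rec
import Pool.Agent.W599.P3.FG
import Pool.Agent.W935.P3.GS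
import Pool.Agent.W721.P3.Vert
import Pool.Agent.W721.P3.End
import Pool.Agent.W163.P3.Main

set_option autoImplicit false

namespace Pool.Agent.W163.P3

theorem main_all : ∀ (n : ℕ) (r : Fin n → Fin n → ℕ), 0 < n → Ori r →
    5 * TS r Finset.univ + 2 * n ≤ 2 * n ^ 3 :=
  main_nat Pool.Agent.W346.P3.t_PROD
    (pi_le (Cert.t_CERT Pool.Agent.W310.P3.t_PSD Pool.Agent.W427.P3.t_REC Pool.Agent.W599.P3.t_FG
        Pool.Agent.W935.P3.GS.t_GS)
      Pool.Agent.W45.P3.CLOSE.t_CLOSE Pool.Agent.W721.P3.t_VERT Pool.Agent.W721.P3.E.t_END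
      Pool.Agent.W346.P3.t_L1 Pool.Agent.W346.P3.t_L2 Pool.Agent.W346.P3.t_L3 Pool.Agent.W577.P3.t_T
      Pool.Agent.W131.P3.t_C0 Pool.Agent.W131.P3.t_EXT Pool.Agent.W346.P3.t_PROD
      Pool.Agent.W45.P3.RA1.t_RA1 Pool.Agent.W563.P3.t_RA2 Pool.Agent.W577.P3.RA3.t_RA3
      Pool.Agent.W591.P3.t_RA4 Pool.Agent.W320.P3.t_RC0)

end Pool.Agent.W163.P3
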