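import Pool.Agent.W163.P3.Tot

set_option autoImplicit false
open Finset

namespace Pool.Agent.W163.P3.Cert

theorem t_CERT (hP : S_PSD) (hR : S_REC) (hF : S_FG) (hG : S_GS) : S_CERT := by
  intro V _ _ r p e hE hp he hn
  by_contra hcon
  push Not at hcon
  have hN : (0 : ℝ) < (Fintype.card V : ℝ) := by exact_mod_cast hn
  set N : ℝ := (Fintype.card V : ℝ) with hNdef
  have h := hE.ori
  obtain ⟨hq, h1⟩ := hP (by
    intro t ht
    interval_cases t
    exacts [cg3_0, cg3_1, cg3_2, cg3_3, cg3_4, cg3_5, cg3_6]) cg1 V r h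
  have hr := hR V r h p hE.cap
  obtain ⟨hT, hFG⟩ := hF V r h
  have tot := total r h
  have tot2 := total2 r h
  have htot := hE.tot
  set P : ℕ := ∑ a, ∑ b, ∑ c, pth r a b c with hPdef
  have hGS : (14407 : ℝ) * N ^ 2 * (P : ℝ) ≤ ((∑ a, ∑ b, ∑ c, pth r a b c * GS r a b c : ℕ) : ℝ) := by
    rw [hPdef]
    push_cast
    simp only [Finset.mul_sum]
    refine sum_le_sum fun a _ => sum_le_sum fun b _ => sum_le_sum fun c _ => ?_
    have g := hG V r h a b c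
    have c1 := hcon a b c
    have hge : (14407 : ℝ) * N ^ 2 ≤ (GS r a b c : ℝ) := by
      rw [g]; linarith
    have hp0 : (0 : ℝ) ≤ (pth r a b c : ℝ) := Nat.cast_nonneg _
    nlinarith [mul_le_mul_of_nonneg_left hge hp0]
  -- casts
  have hFGr : ((∑ x : Fin 5 → V, FG r (x 0) (x 1) (x 2) (x 3) (x 4) : ℕ) : ℝ)
      + 6 * ((2 * 134690174 * 14407) * (N ^ 2 * (P : ℝ))) =
      6 * (52776558133248 * (N ^ 2 * (P : ℝ))
        + (2 * 134690174) * ((∑ a, ∑ b, ∑ c, pth r a b c * GS r a b c : ℕ) : ℝ)) := by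
    rw [hNdef]; exact_mod_cast hFG
  have hTr : (TS r univ : ℝ) = 6 * (P : ℝ) := by exact_mod_cast hT
  have hqr : (2251799813685248 : ℝ) * N ^ 5
      ≤ ((∑ x : Fin 5 → V, FQ r (x 0) (x 1) (x 2) (x 3) (x 4) : ℕ) : ℝ) := by
    rw [hNdef]; exact_mod_cast hq
  have h1r : (2251799813685248 : ℝ) * N ^ 5
      ≤ ((∑ x : Fin 5 → V, F1 r (x 0) (x 1) (x 2) (x 3) (x 4) : ℕ) : ℝ) := by
    rw [hNdef]; exact_mod_cast h1
  have totr : 10 * ((∑ x : Fin 5 → V, FQ r (x 0) (x 1) (x 2) (x 3) (x 4) : ℕ) : ℝ)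
      + 10 * ((∑ x : Fin 5 → V, FG r (x 0) (x 1) (x 2) (x 3) (x 4) : ℕ) : ℝ)
      + 15 * ((∑ x : Fin 5 → V, F1 r (x 0) (x 1) (x 2) (x 3) (x 4) : ℕ) : ℝ)
      + 10 * ((∑ x : Fin 5 → V, FR r (x 0) (x 1) (x 2) (x 3) (x 4) : ℕ) : ℝ)
      ≤ 57913476058217472 * N ^ 5 := by
    rw [hNdef]; exact_mod_cast tot
  have tot2r : 10 * ((∑ x : Fin 5 → V, FS r (x 0) (x 1) (x 2) (x 3) (x 4) : ℕ) : ℝ)
      ≤ 105553116266496 * N ^ 5 := by
    rw [hNdef]; exact_mod_cast tot2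
  have hN5 : 0 < N ^ 5 := by positivity
  have hN2 : 0 < N ^ 2 := by positivity
  -- lower bound of the path part
  have hFGl : (52776558133248 : ℝ) * ((p - e) * N ^ 5)
      ≤ ((∑ x : Fin 5 → V, FG r (x 0) (x 1) (x 2) (x 3) (x 4) : ℕ) : ℝ) := by
    have e1 : (p - e) * N ^ 5 ≤ N ^ 2 * (6 * (P : ℝ)) := by
      have := mul_le_mul_of_nonneg_left htot hN2.le
      rw [hTr] at this
      calc (p - e) * N ^ 5 = N ^ 2 * ((p - e) * N ^ 3) := by ring
        _ ≤ _ := this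
    have e2 : 6 * ((2 * 134690174 * 14407) * (N ^ 2 * (P : ℝ)))
        ≤ 6 * ((2 * 134690174) * ((∑ a, ∑ b, ∑ c, pth r a b c * GS r a b c : ℕ) : ℝ)) := by
      nlinarith
    nlinarith
  have hFSl : (5 * p - 2) * (10 * ((∑ x : Fin 5 → V, FS r (x 0) (x 1) (x 2) (x 3) (x 4) : ℕ) : ℝ))
      ≤ (5 * p - 2) * (105553116266496 * N ^ 5) :=
    mul_le_mul_of_nonneg_left tot2r (by linarith)
  have key : (527765581332480 * (p - e) - (5 * p - 2) * 105553116266496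
      + 25 * 2251799813685248 + 10 * 140737488355328 - 57913476058217472) * N ^ 5 ≤ 0 := by
    nlinarith
  have kp : 0 < 527765581332480 * (p - e) - (5 * p - 2) * 105553116266496
      + 25 * 2251799813685248 + 10 * 140737488355328 - 57913476058217472 := by
    have : e ≤ 1 / 10000000 := by norm_num at he ⊢; exact he
    linarith
  have := mul_pos kp hN5
  linarith

end Pool.Agent.W163.P3.Cert
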