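import Pool.Agent.W163.P3.Stm
import Pool.Agent.W163.P3.Real

set_option autoImplicit false
open Finset

namespace Pool.Agent.W163.P3

/-- number of vertices of the other parts which are nonstandard towards `v`, if `v` is put in part `i` -/
def Dv {V : Type} [Fintype V] (r : V → V → ℕ) (q : V → ℕ) (v : V) (i : ℕ) : ℕ :=
  (univ.filter (fun w => q w < 4 ∧ q w ≠ i ∧ r v w ≠ sd i (q w))).card

/-- number of vertices of part `i` in class `c` of `v` -/
def Cv {V : Type} [Fintype V] (r : V → V → ℕ) (q : V → ℕ) (v : V) (i c : ℕ) : ℕ :=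
  (univ.filter (fun w => q w = i ∧ r v w = c)).card

/-- closeness to the blow-up -/
def Close {V : Type} [Fintype V] (r : V → V → ℕ) (q : V → ℕ) : Prop :=
  2 * (Fk r q : ℝ) + 2 * ((univ.filter (fun w : V => 4 ≤ q w)).card : ℝ) * (Fintype.card V : ℝ)
    + 6 * (4 * (∑ k ∈ range 4, ((pt q k).card : ℝ) ^ 2)
      - ((univ.filter (fun w : V => q w < 4)).card : ℝ) ^ 2)
    ≤ 292 / 100000 * (Fintype.card V : ℝ) ^ 2

/-- every vertex fits in one of the parts -/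
def Fits {V : Type} [Fintype V] (r : V → V → ℕ) (q : V → ℕ) : Prop :=
  ∀ v : V, ∃ i < 4, (Dv r q v i : ℝ) ≤ 3 / 100 * (Fintype.card V : ℝ) ∧
    ∀ c < 3, (Cv r q v i c : ℝ) + (Dv r q v i : ℝ) ≤ 235 / 1000 * (Fintype.card V : ℝ)

/-- classification of the vertices -/
def S_VERT : Prop := S_L1 → S_L2 → S_L3 → S_RA1 → S_RA2 → S_RA3 → S_RA4 →
  ∀ (V : Type) [Fintype V] [DecidableEq V] (r : V → V → ℕ) (p e : ℝ) (q : V → ℕ),
    Ext r p e → 2 / 5 ≤ p → 0 ≤ e → e ≤ 1 / 10 ^ 7 → 0 < Fintype.card V →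
    Close r q → Fits r q

/-- the end of the proof -/
def S_END : Prop := S_T →
  ∀ (V : Type) [Fintype V] [DecidableEq V] (r : V → V → ℕ) (p e : ℝ) (q : V → ℕ),
    Ext r p e → 2 / 5 < p → p ≤ 1 → 0 ≤ e → e ≤ 1 / 10 ^ 7 → 4 * e ≤ p - 2 / 5 →
    0 < Fintype.card V → Close r q → Fits r q → False

/-- what the flag algebra certificate gives -/
def S_CERT : Prop :=
  ∀ (V : Type) [Fintype V] [DecidableEq V] (r : V → V → ℕ) (p e : ℝ),
    Ext r p e → 2 / 5 ≤ p → e ≤ 1 / 10 ^ 7 → 0 < Fintype.card V →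
    ∃ a b c : V,
      10 * ((univ.filter (fun w : V => 4 ≤ qr r a b c w ∧ qr r a b c w < 7)).card : ℝ)
          * (Fintype.card V : ℝ)
      + 4920 * ((univ.filter (fun w : V => 7 ≤ qr r a b c w)).card : ℝ) * (Fintype.card V : ℝ)
      + 4800 * (Fk r (qr r a b c) : ℝ) + 24480 * (Fyu r (qr r a b c) : ℝ)
      + 14400 * (4 * (∑ k ∈ range 4, ((pt (qr r a b c) k).card : ℝ) ^ 2)
        - ((univ.filter (fun w : V => qr r a b c w < 4)).card : ℝ) ^ 2)
      ≤ 7 * (Fintype.card V : ℝ) ^ 2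

/-- from the certificate to closeness -/
def S_CLOSE : Prop := S_C0 → S_RC0 →
  ∀ (V : Type) [Fintype V] [DecidableEq V] (r : V → V → ℕ) (p e : ℝ) (q : V → ℕ),
    Ext r p e → 2 / 5 ≤ p → p ≤ 1 → 0 ≤ e → e ≤ 1 / 10 ^ 7 → 0 < Fintype.card V →
      10 * ((univ.filter (fun w : V => 4 ≤ q w ∧ q w < 7)).card : ℝ) * (Fintype.card V : ℝ)
      + 4920 * ((univ.filter (fun w : V => 7 ≤ q w)).card : ℝ) * (Fintype.card V : ℝ)
      + 4800 * (Fk r q : ℝ) + 24480 * (Fyu r q : ℝ)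
      + 14400 * (4 * (∑ k ∈ range 4, ((pt q k).card : ℝ) ^ 2)
        - ((univ.filter (fun w : V => q w < 4)).card : ℝ) ^ 2)
      ≤ 7 * (Fintype.card V : ℝ) ^ 2 → Close r q

end Pool.Agent.W163.P3
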