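import Pool.Agent.W163.P3.Tab
import Pool.Agent.W163.P3.Stm2

set_option autoImplicit false
open Finset

namespace Pool.Agent.W163.P3.Cert

variable {V : Type} (r : V → V → ℕ)

/-- semidefinite part, 3-vertex types -/
def FQ (a b c d e : V) : ℕ :=
  q3 (cd (r a b) (r a c) (r b c)) (cd (r a d) (r b d) (r c d)) (cd (r a e) (r b e) (r c e))
/-- density of paths and weights of the classes of the roots -/
def FG (a b c d e : V) : ℕ :=
  g2 (tp (cd (r a b) (r a c) (r b c)) (cd (r a d) (r b d) (r c d)))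
    (tp (cd (r a b) (r a c) (r b c)) (cd (r a e) (r b e) (r c e))) (r d e)
/-- semidefinite part, 1-vertex type -/
def F1 (a b c d e : V) : ℕ := q1 (cd (r a b) (r a c) (r b c)) (cd (r a d) (r a e) (r d e))
/-- recursion terms -/
def FR (a b c d e : V) : ℕ :=
  rv (r a b) (kk (r a c) (r b c)) (kk (r a d) (r b d)) (kk (r a e) (r b e))
    (cd (r c d) (r c e) (r d e))
/-- total weight of the recursion terms -/
def FS (a b c d e : V) : ℕ :=
  rs (r a b) (kk (r a c) (r b c)) (kk (r a d) (r b d)) (kk (r a e) (r b e))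

/-- the semidefinite parts are nonnegative (up to the offset `2^51`) -/
def S_PSD : Prop := (∀ t < 7, chk3 t = true) → chk1 = true →
  ∀ (V : Type) [Fintype V] (r : V → V → ℕ), Ori r →
  2251799813685248 * Fintype.card V ^ 5 ≤ ∑ x : Fin 5 → V, FQ r (x 0) (x 1) (x 2) (x 3) (x 4) ∧
  2251799813685248 * Fintype.card V ^ 5 ≤ ∑ x : Fin 5 → V, F1 r (x 0) (x 1) (x 2) (x 3) (x 4)

/-- the recursion terms: `2^47` is the offset -/
def S_REC : Prop :=
  ∀ (V : Type) [Fintype V] [DecidableEq V] (r : V → V → ℕ), Ori r → ∀ p : ℝ,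
  (∀ X : Finset V, (TS r X : ℝ) ≤ p * (X.card : ℝ) ^ 3) →
  140737488355328 * (Fintype.card V : ℝ) ^ 5
    - (5 * p - 2) * ((∑ x : Fin 5 → V, FS r (x 0) (x 1) (x 2) (x 3) (x 4) : ℕ) : ℝ)
    ≤ ((∑ x : Fin 5 → V, FR r (x 0) (x 1) (x 2) (x 3) (x 4) : ℕ) : ℝ)

/-- conjugate code -/
def cj (c : ℕ) : ℕ := if c = 1 then 2 else if c = 2 then 1 else 0

/-- weight of a pair of classes, plus 14407 -/
def gn (k l c : ℕ) : ℕ :=
  if k < 4 ∧ l < 4 then (if k = l then 57600 else if c = sd k l then 0 else 4800) else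
  14400 + (if k = 7 then 4920 else 0) + (if 4 ≤ k ∧ k < 7 then 10 else 0)
    + (if k < 4 ∧ 4 ≤ l ∧ l < 7 ∧ cj c ≠ l - 4 then 24480 else 0)

/-- `1` if `a → b → c` is an induced path -/
def pth (a b c : V) : ℕ := if r a b = 1 ∧ r b c = 1 ∧ r a c = 0 then 1 else 0

/-- sum over all pairs of vertices for a root -/
def GS [Fintype V] (a b c : V) : ℕ :=
  ∑ w, ∑ z, gn (qr r a b c w) (qr r a b c z) (r w z)

/-- the path terms: `cT = 12*2^42`, `E0 = 134690174` -/
def S_FG : Prop :=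
  ∀ (V : Type) [Fintype V] [DecidableEq V] (r : V → V → ℕ), Ori r →
  TS r univ = 6 * ∑ a, ∑ b, ∑ c, pth r a b c ∧
  (∑ x : Fin 5 → V, FG r (x 0) (x 1) (x 2) (x 3) (x 4))
    + 6 * ((2 * 134690174 * 14407) * (Fintype.card V ^ 2 * ∑ a, ∑ b, ∑ c, pth r a b c)) =
  6 * (52776558133248 * (Fintype.card V ^ 2 * ∑ a, ∑ b, ∑ c, pth r a b c)
    + (2 * 134690174) * ∑ a, ∑ b, ∑ c, pth r a b c * GS r a b c)

/-- meaning of `GS` -/
def S_GS : Prop :=
  ∀ (V : Type) [Fintype V] [DecidableEq V] (r : V → V → ℕ), Ori r → ∀ a b c : V,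
  ((GS r a b c : ℕ) : ℝ) = 14400 * (Fintype.card V : ℝ) ^ 2
      + 10 * ((univ.filter (fun w : V => 4 ≤ qr r a b c w ∧ qr r a b c w < 7)).card : ℝ)
          * (Fintype.card V : ℝ)
      + 4920 * ((univ.filter (fun w : V => 7 ≤ qr r a b c w)).card : ℝ) * (Fintype.card V : ℝ)
      + 4800 * (Fk r (qr r a b c) : ℝ) + 24480 * (Fyu r (qr r a b c) : ℝ)
      + 14400 * (4 * (∑ k ∈ range 4, ((pt (qr r a b c) k).card : ℝ) ^ 2)
        - ((univ.filter (fun w : V => qr r a b c w < 4)).card : ℝ) ^ 2)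

end Pool.Agent.W163.P3.Cert
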