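import Pool.Agent.W163.P3.Tab

set_option autoImplicit false
set_option maxRecDepth 100000

namespace Pool.Agent.W163.P3.Cert

theorem ck3 : chk 1 2 0 0 = true := by decide +kernel
theorem ck4 : chk 1 2 1 2 = true := by decide +kernel
theorem ck5 : chk 1 2 2 1 = true := by decide +kernel

end Pool.Agent.W163.P3.Cert
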