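import Mathlib

set_option autoImplicit false
open Finset

namespace Pool.Agent.W163.P3

/-- compatible pairs of relation codes `(r x y, r y x)`:
`0` = no arc, `1` = arc `x → y`, `2` = arc `y → x` -/
def Pr (d e : ℕ) : Prop := (d = 0 ∧ e = 0) ∨ (d = 1 ∧ e = 2) ∨ (d = 2 ∧ e = 1)

/-- `r` codes an oriented graph on `V` (so `r x x = 0`) -/
def Ori {V : Type} (r : V → V → ℕ) : Prop := ∀ x y, Pr (r x y) (r y x)

/-- `pc (r x y) (r x z) (r y z) = 1` iff `{x,y,z}` induces a directed path with three vertices -/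
def pc (a b c : ℕ) : ℕ :=
  if (a = 1 ∧ b = 2 ∧ c = 0) ∨ (a = 2 ∧ b = 1 ∧ c = 0) ∨ (a = 1 ∧ b = 0 ∧ c = 1) ∨
     (a = 2 ∧ b = 0 ∧ c = 2) ∨ (a = 0 ∧ b = 1 ∧ c = 2) ∨ (a = 0 ∧ b = 2 ∧ c = 1) then 1 else 0

/-- number of ordered triples in `X` which induce a directed path (6 times the number of paths) -/
def TS {V : Type} (r : V → V → ℕ) (X : Finset V) : ℕ :=
  ∑ x ∈ X, ∑ y ∈ X, ∑ z ∈ X, pc (r x y) (r x z) (r y z)

/-- number of ordered pairs `(y,z)` which form a path with a new vertex attached by `φ`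
(`φ w` = code of the pair (new vertex, `w`)); for `φ = r v` this is the number at the vertex `v` -/
def tph {V : Type} [Fintype V] (r : V → V → ℕ) (φ : V → ℕ) : ℕ :=
  ∑ y, ∑ z, pc (φ y) (φ z) (r y z)

/-- the parts: `q v < 4` is the index of the part of `v`; `q v ≥ 4` means outside of the parts -/
def pt {V : Type} [Fintype V] (q : V → ℕ) (k : ℕ) : Finset V := univ.filter (fun v => q v = k)

/-- standard code between a vertex of part `k` and a vertex of part `l ≠ k` (parts are cyclically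
ordered, all arcs from part `k` to part `k+1 mod 4`, no arcs between `k` and `k+2`) -/
def sd (k l : ℕ) : ℕ := if (l + 4 - k) % 4 = 1 then 1 else if (l + 4 - k) % 4 = 3 then 2 else 0

/-- label of a code `c` towards part `k`: the index `i ≠ k` with `sd i k = c` -/
def lab (c k : ℕ) : ℕ := (k + (if c = 1 then 3 else if c = 2 then 1 else 2)) % 4

/-- `1` if the pair `(v,w)` lies in different parts and is not standard -/
def fk {V : Type} (r : V → V → ℕ) (q : V → ℕ) (v w : V) : ℕ :=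
  if q v < 4 ∧ q w < 4 ∧ q v ≠ q w ∧ r v w ≠ sd (q v) (q w) then 1 else 0

/-- number of ordered nonstandard pairs -/
def Fk {V : Type} [Fintype V] (r : V → V → ℕ) (q : V → ℕ) : ℕ := ∑ v, ∑ w, fk r q v w

/-- number of vertices of part `k` with label `i` (w.r.t. the attachment `φ`) -/
def Mm {V : Type} [Fintype V] (q φ : V → ℕ) (k i : ℕ) : ℕ :=
  (univ.filter (fun w => q w = k ∧ lab (φ w) k = i)).card

/-- paths inside part `k` with the new vertex `φ` -/
def tin {V : Type} [Fintype V] (r : V → V → ℕ) (q φ : V → ℕ) (k : ℕ) : ℕ :=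
  ∑ y ∈ pt q k, ∑ z ∈ pt q k, pc (φ y) (φ z) (r y z)

/-- extremality package -/
structure Ext {V : Type} [Fintype V] (r : V → V → ℕ) (p e : ℝ) : Prop where
  ori : Ori r
  cap : ∀ X : Finset V, (TS r X : ℝ) ≤ p * (X.card : ℝ) ^ 3
  tot : (p - e) * (Fintype.card V : ℝ) ^ 3 ≤ (TS r univ : ℝ)
  low : ∀ v, (p - e) * (Fintype.card V : ℝ) ^ 2 ≤ (tph r (r v) : ℝ)
  upp : ∀ φ : V → ℕ, (∀ w, φ w < 3) → (tph r φ : ℝ) ≤ (p + e) * (Fintype.card V : ℝ) ^ 2

/-- the supremum of the densities -/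
noncomputable def PI : ℝ :=
  sSup {x : ℝ | ∃ (n : ℕ) (r : Fin n → Fin n → ℕ), 0 < n ∧ Ori r ∧
    x = (TS r univ : ℝ) / (n : ℝ) ^ 3}

/-- classes of the vertices with respect to a path `a → b → c`:
`0,1,2,3` = parts (with `a`, `b`, `c` in parts 0, 1, 2), `4,5,6` = uniform with code `0,1,2`, `7` = bad -/
def cls (x y z : ℕ) : ℕ :=
  if y = 1 ∧ z = 0 then 0 else if x = 2 ∧ z = 1 then 1 else if x = 0 ∧ y = 2 then 2 else
  if x = 1 ∧ y = 0 ∧ z = 2 then 3 else if x = y ∧ y = z ∧ x < 3 then 4 + x else 7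

/-- class of `w` w.r.t. the root `(a,b,c)` -/
def qr {V : Type} (r : V → V → ℕ) (a b c w : V) : ℕ := cls (r w a) (r w b) (r w c)

/-- number of nonstandard pairs between the parts and the uniform vertices -/
def Fyu {V : Type} [Fintype V] (r : V → V → ℕ) (q : V → ℕ) : ℕ :=
  ∑ w, ∑ z, (if q w < 4 ∧ 4 ≤ q z ∧ q z < 7 ∧ r z w ≠ q z - 4 then 1 else 0)

end Pool.Agent.W163.P3
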