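import Pool.Agent.W163.P3.Defs

set_option autoImplicit false
open Finset

namespace Pool.Agent.W163.P3

/-- label expansion of the number of paths at a vertex -/
def S_L1 : Prop := ∀ (V : Type) [Fintype V] [DecidableEq V] (r : V → V → ℕ), Ori r →
  ∀ q φ : V → ℕ, (∀ w, φ w < 3) →
    tph r φ ≤ Fk r q + 2 * (univ.filter (fun w : V => 4 ≤ q w)).card * Fintype.card V
      + ∑ k ∈ range 4, ∑ l ∈ range 4, (if k = l then 0 else ∑ i ∈ range 4, Mm q φ k i * Mm q φ l i)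
      + ∑ k ∈ range 4, tin r q φ k

/-- elementary facts on labels inside one part -/
def S_L2 : Prop := ∀ (V : Type) [Fintype V] [DecidableEq V] (r : V → V → ℕ), Ori r →
  ∀ q φ : V → ℕ, (∀ w, φ w < 3) → ∀ k < 4,
    tin r q φ k + ∑ i ∈ range 4, Mm q φ k i ^ 2 ≤ (pt q k).card ^ 2 ∧
    Mm q φ k k = 0 ∧ ∑ i ∈ range 4, Mm q φ k i = (pt q k).card

/-- the number of paths inside a part is bounded by using the standard attachment outside -/
def S_L3 : Prop := ∀ (V : Type) [Fintype V] [DecidableEq V] (r : V → V → ℕ), Ori r →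
  ∀ q φ : V → ℕ, (∀ w, φ w < 3) → ∀ k < 4, ∃ ψ : V → ℕ, (∀ w, ψ w < 3) ∧
    tin r q φ k + ∑ l ∈ range 4, ∑ m ∈ range 4,
      (if l ≠ m ∧ l ≠ k ∧ m ≠ k then (pt q l).card * (pt q m).card else 0) ≤ tph r ψ + Fk r q

/-- counting all paths along a partition with few nonstandard pairs -/
def S_T : Prop := ∀ (V : Type) [Fintype V] [DecidableEq V] (r : V → V → ℕ), Ori r →
  ∀ q : V → ℕ, (∀ v, q v < 4) → ∀ A : ℕ,
    (∀ v c, c < 3 → (univ.filter (fun w => q w = q v ∧ r v w = c)).card + ∑ w, fk r q v w ≤ A) →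
    (∀ k < 4, ∀ l < 4, k ≠ l → 2 * A ≤ (pt q k).card + (pt q l).card) →
    TS r univ ≤ ∑ k ∈ range 4, TS r (pt q k)
      + ∑ k ∈ range 4, ∑ l ∈ range 4, ∑ m ∈ range 4,
        (if k ≠ l ∧ l ≠ m ∧ k ≠ m then (pt q k).card * (pt q l).card * (pt q m).card else 0)

/-- counting paths at the vertices of the parts, with uniform and bad vertices outside -/
def S_C0 : Prop := ∀ (V : Type) [Fintype V] [DecidableEq V] (r : V → V → ℕ), Ori r →
  ∀ q : V → ℕ,
    3 * ∑ w ∈ univ.filter (fun w => q w < 4), tph r (r w) ≤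
      3 * TS r (univ.filter (fun w => q w < 4))
      + 12 * (univ.filter (fun w : V => q w < 4)).card * Fyu r q
      + 6 * ∑ w ∈ univ.filter (fun w : V => 7 ≤ q w), tph r (r w)
      + 2 * (univ.filter (fun w : V => q w < 4)).card * (univ.filter (fun w : V => 4 ≤ q w)).card ^ 2

/-- extremal graphs exist -/
def S_EXT : Prop := ∀ e : ℝ, 0 < e → ∃ (n : ℕ), 0 < n ∧ ∃ r : Fin n → Fin n → ℕ, Ext r PI e

/-- the sharp form with lower order terms, by substitution -/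
def S_PROD : Prop := PI ≤ 1 ∧ ∀ (n : ℕ) (r : Fin n → Fin n → ℕ), 0 < n → Ori r →
  (TS r univ : ℝ) ≤ PI * ((n : ℝ) ^ 3 - n)

/-- translation to the frozen statement -/
def S_FIN : Prop := (∀ (n : ℕ) (r : Fin n → Fin n → ℕ), 0 < n → Ori r →
    5 * TS r univ + 2 * n ≤ 2 * n ^ 3) →
  ∀ (n : ℕ) (G : Digraph (Fin n)),
      (∀ u v : Fin n, G.Adj u v → ¬ G.Adj v u) →
      15 * {p : Fin n × Fin n × Fin n |
              G.Adj p.1 p.2.1 ∧ G.Adj p.2.1 p.2.2 ∧
              ¬ G.Adj p.1 p.2.2 ∧ ¬ G.Adj p.2.2 p.1}.ncard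
        ≤ (n - 1) * n * (n + 1)

end Pool.Agent.W163.P3
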