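import Pool.Agent.W163.P3.Defs

set_option autoImplicit false
open Finset

namespace Pool.Agent.W163.P3

/-- lower bound for all orders -/
def S_LOW : Prop := ∀ n : ℕ, ∃ r : Fin n → Fin n → ℕ, Ori r ∧
  2 * (n : ℝ) * ((n : ℝ) - 1) * ((n : ℝ) - 2) ≤ 5 * (TS r univ : ℝ)

/-- translation to the frozen statement S08607 -/
def S_FIN2 : Prop := (∀ (n : ℕ) (r : Fin n → Fin n → ℕ), 0 < n → Ori r →
    5 * TS r univ + 2 * n ≤ 2 * n ^ 3) → S_LOW →
  ∃ C : ℝ, ∀ n : ℕ,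
      (∀ r : Fin n → Fin n → Bool,
        (∀ i, r i i = false) → (∀ i j, ¬ (r i j = true ∧ r j i = true)) →
        ((((Finset.univ : Finset (Fin n × Fin n × Fin n)).filter
            (fun t => r t.1 t.2.1 = true ∧ r t.2.1 t.2.2 = true ∧
              r t.1 t.2.2 = false ∧ r t.2.2 t.1 = false ∧ t.1 ≠ t.2.2)).card : ℕ) : ℝ)
          ≤ (n : ℝ) ^ 3 / 15 + C * (n : ℝ) ^ 2) ∧
      (∃ r : Fin n → Fin n → Bool,
        (∀ i, r i i = false) ∧ (∀ i j, ¬ (r i j = true ∧ r j i = true)) ∧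
        (n : ℝ) ^ 3 / 15 - C * (n : ℝ) ^ 2 ≤
          ((((Finset.univ : Finset (Fin n × Fin n × Fin n)).filter
            (fun t => r t.1 t.2.1 = true ∧ r t.2.1 t.2.2 = true ∧
              r t.1 t.2.2 = false ∧ r t.2.2 t.1 = false ∧ t.1 ≠ t.2.2)).card : ℕ) : ℝ))

end Pool.Agent.W163.P3
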