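import Pool.Agent.W163.P3.Chk0
import Pool.Agent.W163.P3.Chk1
import Pool.Agent.W163.P3.Chk2
import Pool.Agent.W163.P3.CStm

set_option autoImplicit false
set_option maxRecDepth 100000
open Finset

namespace Pool.Agent.W163.P3.Cert

theorem A3_true {f : ℕ → ℕ → Bool} (h : A3 f = true) {d e : ℕ} (hd : Pr d e) : f d e = true := by
  have h' : (f 0 0 && (f 1 2 && f 2 1)) = true := h
  simp only [Bool.and_eq_true] at h'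
  rcases hd with ⟨rfl, rfl⟩ | ⟨rfl, rfl⟩ | ⟨rfl, rfl⟩
  exacts [h'.1, h'.2.1, h'.2.2]

theorem leaf_le (d01 e01 d02 e02 d03 e03 d04 e04 d12 e12 d13 e13 d14 e14 d23 e23 d24 e24 d34 e34 : ℕ) (h01 : Pr d01 e01) (h02 : Pr d02 e02) (h03 : Pr d03 e03) (h04 : Pr d04 e04) (h12 : Pr d12 e12) (h13 : Pr d13 e13) (h14 : Pr d14 e14) (h23 : Pr d23 e23) (h24 : Pr d24 e24) (h34 : Pr d34 e34) :
    leaf d01 e01 d02 e02 d03 e03 d04 e04 d12 e12 d13 e13 d14 e14 d23 e23 d24 e24 d34 e34 ≤ 57913476058217472 ∧ leaf2 d01 e01 d02 e02 d03 e03 d04 e04 d12 e12 d13 e13 d14 e14 d23 e23 d24 e24 d34 e34 ≤ 105553116266496 := by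
  have hc : chk d01 e01 d02 e02 = true := by
    rcases h01 with ⟨rfl, rfl⟩ | ⟨rfl, rfl⟩ | ⟨rfl, rfl⟩ <;>
    rcases h02 with ⟨rfl, rfl⟩ | ⟨rfl, rfl⟩ | ⟨rfl, rfl⟩
    exacts [ck0, ck1, ck2, ck3, ck4, ck5, ck6, ck7, ck8]
  have h := (A3_true (A3_true (A3_true (A3_true (A3_true (A3_true (A3_true (A3_true hc h03) h04) h12) h13) h14) h23) h24) h34)
  rw [Bool.and_eq_true] at h
  exact ⟨Nat.le_of_ble_eq_true h.1, Nat.le_of_ble_eq_true h.2⟩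

variable {V : Type} (r : V → V → ℕ)

theorem pw (h : Ori r) (x : Fin 5 → V) :
    (((FQ r (x 0) (x 1) (x 2) (x 3) (x 4) + FG r (x 0) (x 1) (x 2) (x 3) (x 4)) +
      ((FQ r (x 0) (x 1) (x 3) (x 2) (x 4) + FG r (x 0) (x 1) (x 3) (x 2) (x 4)) +
      ((FQ r (x 0) (x 1) (x 4) (x 2) (x 3) + FG r (x 0) (x 1) (x 4) (x 2) (x 3)) +
      ((FQ r (x 0) (x 2) (x 3) (x 1) (x 4) + FG r (x 0) (x 2) (x 3) (x 1) (x 4)) +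
      ((FQ r (x 0) (x 2) (x 4) (x 1) (x 3) + FG r (x 0) (x 2) (x 4) (x 1) (x 3)) +
      ((FQ r (x 0) (x 3) (x 4) (x 1) (x 2) + FG r (x 0) (x 3) (x 4) (x 1) (x 2)) +
      ((FQ r (x 1) (x 2) (x 3) (x 0) (x 4) + FG r (x 1) (x 2) (x 3) (x 0) (x 4)) +
      ((FQ r (x 1) (x 2) (x 4) (x 0) (x 3) + FG r (x 1) (x 2) (x 4) (x 0) (x 3)) +
      ((FQ r (x 1) (x 3) (x 4) (x 0) (x 2) + FG r (x 1) (x 3) (x 4) (x 0) (x 2)) +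
      (FQ r (x 2) (x 3) (x 4) (x 0) (x 1) + FG r (x 2) (x 3) (x 4) (x 0) (x 1))))))))))) + ((F1 r (x 0) (x 1) (x 2) (x 3) (x 4) +
      (F1 r (x 0) (x 1) (x 3) (x 2) (x 4) +
      (F1 r (x 0) (x 1) (x 4) (x 2) (x 3) +
      (F1 r (x 1) (x 0) (x 2) (x 3) (x 4) +
      (F1 r (x 1) (x 0) (x 3) (x 2) (x 4) +
      (F1 r (x 1) (x 0) (x 4) (x 2) (x 3) +
      (F1 r (x 2) (x 0) (x 1) (x 3) (x 4) +
      (F1 r (x 2) (x 0) (x 3) (x 1) (x 4) +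
      (F1 r (x 2) (x 0) (x 4) (x 1) (x 3) +
      (F1 r (x 3) (x 0) (x 1) (x 2) (x 4) +
      (F1 r (x 3) (x 0) (x 2) (x 1) (x 4) +
      (F1 r (x 3) (x 0) (x 4) (x 1) (x 2) +
      (F1 r (x 4) (x 0) (x 1) (x 2) (x 3) +
      (F1 r (x 4) (x 0) (x 2) (x 1) (x 3) +
      F1 r (x 4) (x 0) (x 3) (x 1) (x 2))))))))))))))) + (FR r (x 0) (x 1) (x 2) (x 3) (x 4) +
      (FR r (x 0) (x 2) (x 1) (x 3) (x 4) +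
      (FR r (x 0) (x 3) (x 1) (x 2) (x 4) +
      (FR r (x 0) (x 4) (x 1) (x 2) (x 3) +
      (FR r (x 1) (x 2) (x 0) (x 3) (x 4) +
      (FR r (x 1) (x 3) (x 0) (x 2) (x 4) +
      (FR r (x 1) (x 4) (x 0) (x 2) (x 3) +
      (FR r (x 2) (x 3) (x 0) (x 1) (x 4) +
      (FR r (x 2) (x 4) (x 0) (x 1) (x 3) +
      FR r (x 3) (x 4) (x 0) (x 1) (x 2)))))))))))) ≤ 57913476058217472 :=
  (leaf_le (r (x 0) (x 1)) (r (x 1) (x 0)) (r (x 0) (x 2)) (r (x 2) (x 0)) (r (x 0) (x 3)) (r (x 3) (x 0)) (r (x 0) (x 4)) (r (x 4) (x 0)) (r (x 1) (x 2)) (r (x 2) (x 1)) (r (x 1) (x 3)) (r (x 3) (x 1)) (r (x 1) (x 4)) (r (x 4) (x 1)) (r (x 2) (x 3)) (r (x 3) (x 2)) (r (x 2) (x 4)) (r (x 4) (x 2)) (r (x 3) (x 4)) (r (x 4) (x 3))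
    (h _ _) (h _ _) (h _ _) (h _ _) (h _ _) (h _ _) (h _ _) (h _ _) (h _ _) (h _ _)).1

theorem pw2 (h : Ori r) (x : Fin 5 → V) :
    (FS r (x 0) (x 1) (x 2) (x 3) (x 4) +
      (FS r (x 0) (x 2) (x 1) (x 3) (x 4) +
      (FS r (x 0) (x 3) (x 1) (x 2) (x 4) +
      (FS r (x 0) (x 4) (x 1) (x 2) (x 3) +
      (FS r (x 1) (x 2) (x 0) (x 3) (x 4) +
      (FS r (x 1) (x 3) (x 0) (x 2) (x 4) +
      (FS r (x 1) (x 4) (x 0) (x 2) (x 3) +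
      (FS r (x 2) (x 3) (x 0) (x 1) (x 4) +
      (FS r (x 2) (x 4) (x 0) (x 1) (x 3) +
      FS r (x 3) (x 4) (x 0) (x 1) (x 2)))))))))) ≤ 105553116266496 :=
  (leaf_le (r (x 0) (x 1)) (r (x 1) (x 0)) (r (x 0) (x 2)) (r (x 2) (x 0)) (r (x 0) (x 3)) (r (x 3) (x 0)) (r (x 0) (x 4)) (r (x 4) (x 0)) (r (x 1) (x 2)) (r (x 2) (x 1)) (r (x 1) (x 3)) (r (x 3) (x 1)) (r (x 1) (x 4)) (r (x 4) (x 1)) (r (x 2) (x 3)) (r (x 3) (x 2)) (r (x 2) (x 4)) (r (x 4) (x 2)) (r (x 3) (x 4)) (r (x 4) (x 3))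
    (h _ _) (h _ _) (h _ _) (h _ _) (h _ _) (h _ _) (h _ _) (h _ _) (h _ _) (h _ _)).2

theorem psum [Fintype V] (F : V → V → V → V → V → ℕ) (g : Fin 5 → Fin 5)
    (hg : Function.Bijective g) :
    ∑ x : Fin 5 → V, F (x (g 0)) (x (g 1)) (x (g 2)) (x (g 3)) (x (g 4))
      = ∑ x : Fin 5 → V, F (x 0) (x 1) (x 2) (x 3) (x 4) :=
  Equiv.sum_comp (Equiv.arrowCongr (Equiv.ofBijective g hg).symm (Equiv.refl V))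
    (fun x => F (x 0) (x 1) (x 2) (x 3) (x 4))

theorem total [Fintype V] (h : Ori r) :
    10 * ∑ x : Fin 5 → V, FQ r (x 0) (x 1) (x 2) (x 3) (x 4)
      + 10 * ∑ x : Fin 5 → V, FG r (x 0) (x 1) (x 2) (x 3) (x 4)
      + 15 * ∑ x : Fin 5 → V, F1 r (x 0) (x 1) (x 2) (x 3) (x 4)
      + 10 * ∑ x : Fin 5 → V, FR r (x 0) (x 1) (x 2) (x 3) (x 4)
      ≤ 57913476058217472 * Fintype.card V ^ 5 := by
  have q0 : ∑ x : Fin 5 → V, FQ r (x 0) (x 1) (x 2) (x 3) (x 4) = ∑ x : Fin 5 → V, FQ r (x 0) (x 1) (x 2) (x 3) (x 4) :=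
    psum (FQ r) ![0, 1, 2, 3, 4] (by decide)
  have q1 : ∑ x : Fin 5 → V, FQ r (x 0) (x 1) (x 3) (x 2) (x 4) = ∑ x : Fin 5 → V, FQ r (x 0) (x 1) (x 2) (x 3) (x 4) :=
    psum (FQ r) ![0, 1, 3, 2, 4] (by decide)
  have q2 : ∑ x : Fin 5 → V, FQ r (x 0) (x 1) (x 4) (x 2) (x 3) = ∑ x : Fin 5 → V, FQ r (x 0) (x 1) (x 2) (x 3) (x 4) :=
    psum (FQ r) ![0, 1, 4, 2, 3] (by decide)
  have q3 : ∑ x : Fin 5 → V, FQ r (x 0) (x 2) (x 3) (x 1) (x 4) = ∑ x : Fin 5 → V, FQ r (x 0) (x 1) (x 2) (x 3) (x 4) :=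
    psum (FQ r) ![0, 2, 3, 1, 4] (by decide)
  have q4 : ∑ x : Fin 5 → V, FQ r (x 0) (x 2) (x 4) (x 1) (x 3) = ∑ x : Fin 5 → V, FQ r (x 0) (x 1) (x 2) (x 3) (x 4) :=
    psum (FQ r) ![0, 2, 4, 1, 3] (by decide)
  have q5 : ∑ x : Fin 5 → V, FQ r (x 0) (x 3) (x 4) (x 1) (x 2) = ∑ x : Fin 5 → V, FQ r (x 0) (x 1) (x 2) (x 3) (x 4) :=
    psum (FQ r) ![0, 3, 4, 1, 2] (by decide)
  have q6 : ∑ x : Fin 5 → V, FQ r (x 1) (x 2) (x 3) (x 0) (x 4) = ∑ x : Fin 5 → V, FQ r (x 0) (x 1) (x 2) (x 3) (x 4) :=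
    psum (FQ r) ![1, 2, 3, 0, 4] (by decide)
  have q7 : ∑ x : Fin 5 → V, FQ r (x 1) (x 2) (x 4) (x 0) (x 3) = ∑ x : Fin 5 → V, FQ r (x 0) (x 1) (x 2) (x 3) (x 4) :=
    psum (FQ r) ![1, 2, 4, 0, 3] (by decide)
  have q8 : ∑ x : Fin 5 → V, FQ r (x 1) (x 3) (x 4) (x 0) (x 2) = ∑ x : Fin 5 → V, FQ r (x 0) (x 1) (x 2) (x 3) (x 4) :=
    psum (FQ r) ![1, 3, 4, 0, 2] (by decide)
  have q9 : ∑ x : Fin 5 → V, FQ r (x 2) (x 3) (x 4) (x 0) (x 1) = ∑ x : Fin 5 → V, FQ r (x 0) (x 1) (x 2) (x 3) (x 4) :=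
    psum (FQ r) ![2, 3, 4, 0, 1] (by decide)
  have g0 : ∑ x : Fin 5 → V, FG r (x 0) (x 1) (x 2) (x 3) (x 4) = ∑ x : Fin 5 → V, FG r (x 0) (x 1) (x 2) (x 3) (x 4) :=
    psum (FG r) ![0, 1, 2, 3, 4] (by decide)
  have g1 : ∑ x : Fin 5 → V, FG r (x 0) (x 1) (x 3) (x 2) (x 4) = ∑ x : Fin 5 → V, FG r (x 0) (x 1) (x 2) (x 3) (x 4) :=
    psum (FG r) ![0, 1, 3, 2, 4] (by decide)
  have g2 : ∑ x : Fin 5 → V, FG r (x 0) (x 1) (x 4) (x 2) (x 3) = ∑ x : Fin 5 → V, FG r (x 0) (x 1) (x 2) (x 3) (x 4) :=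
    psum (FG r) ![0, 1, 4, 2, 3] (by decide)
  have g3 : ∑ x : Fin 5 → V, FG r (x 0) (x 2) (x 3) (x 1) (x 4) = ∑ x : Fin 5 → V, FG r (x 0) (x 1) (x 2) (x 3) (x 4) :=
    psum (FG r) ![0, 2, 3, 1, 4] (by decide)
  have g4 : ∑ x : Fin 5 → V, FG r (x 0) (x 2) (x 4) (x 1) (x 3) = ∑ x : Fin 5 → V, FG r (x 0) (x 1) (x 2) (x 3) (x 4) :=
    psum (FG r) ![0, 2, 4, 1, 3] (by decide)
  have g5 : ∑ x : Fin 5 → V, FG r (x 0) (x 3) (x 4) (x 1) (x 2) = ∑ x : Fin 5 → V, FG r (x 0) (x 1) (x 2) (x 3) (x 4) :=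
    psum (FG r) ![0, 3, 4, 1, 2] (by decide)
  have g6 : ∑ x : Fin 5 → V, FG r (x 1) (x 2) (x 3) (x 0) (x 4) = ∑ x : Fin 5 → V, FG r (x 0) (x 1) (x 2) (x 3) (x 4) :=
    psum (FG r) ![1, 2, 3, 0, 4] (by decide)
  have g7 : ∑ x : Fin 5 → V, FG r (x 1) (x 2) (x 4) (x 0) (x 3) = ∑ x : Fin 5 → V, FG r (x 0) (x 1) (x 2) (x 3) (x 4) :=
    psum (FG r) ![1, 2, 4, 0, 3] (by decide)
  have g8 : ∑ x : Fin 5 → V, FG r (x 1) (x 3) (x 4) (x 0) (x 2) = ∑ x : Fin 5 → V, FG r (x 0) (x 1) (x 2) (x 3) (x 4) :=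
    psum (FG r) ![1, 3, 4, 0, 2] (by decide)
  have g9 : ∑ x : Fin 5 → V, FG r (x 2) (x 3) (x 4) (x 0) (x 1) = ∑ x : Fin 5 → V, FG r (x 0) (x 1) (x 2) (x 3) (x 4) :=
    psum (FG r) ![2, 3, 4, 0, 1] (by decide)
  have o0 : ∑ x : Fin 5 → V, F1 r (x 0) (x 1) (x 2) (x 3) (x 4) = ∑ x : Fin 5 → V, F1 r (x 0) (x 1) (x 2) (x 3) (x 4) :=
    psum (F1 r) ![0, 1, 2, 3, 4] (by decide)
  have o1 : ∑ x : Fin 5 → V, F1 r (x 0) (x 1) (x 3) (x 2) (x 4) = ∑ x : Fin 5 → V, F1 r (x 0) (x 1) (x 2) (x 3) (x 4) :=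
    psum (F1 r) ![0, 1, 3, 2, 4] (by decide)
  have o2 : ∑ x : Fin 5 → V, F1 r (x 0) (x 1) (x 4) (x 2) (x 3) = ∑ x : Fin 5 → V, F1 r (x 0) (x 1) (x 2) (x 3) (x 4) :=
    psum (F1 r) ![0, 1, 4, 2, 3] (by decide)
  have o3 : ∑ x : Fin 5 → V, F1 r (x 1) (x 0) (x 2) (x 3) (x 4) = ∑ x : Fin 5 → V, F1 r (x 0) (x 1) (x 2) (x 3) (x 4) :=
    psum (F1 r) ![1, 0, 2, 3, 4] (by decide)
  have o4 : ∑ x : Fin 5 → V, F1 r (x 1) (x 0) (x 3) (x 2) (x 4) = ∑ x : Fin 5 → V, F1 r (x 0) (x 1) (x 2) (x 3) (x 4) :=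
    psum (F1 r) ![1, 0, 3, 2, 4] (by decide)
  have o5 : ∑ x : Fin 5 → V, F1 r (x 1) (x 0) (x 4) (x 2) (x 3) = ∑ x : Fin 5 → V, F1 r (x 0) (x 1) (x 2) (x 3) (x 4) :=
    psum (F1 r) ![1, 0, 4, 2, 3] (by decide)
  have o6 : ∑ x : Fin 5 → V, F1 r (x 2) (x 0) (x 1) (x 3) (x 4) = ∑ x : Fin 5 → V, F1 r (x 0) (x 1) (x 2) (x 3) (x 4) :=
    psum (F1 r) ![2, 0, 1, 3, 4] (by decide)
  have o7 : ∑ x : Fin 5 → V, F1 r (x 2) (x 0) (x 3) (x 1) (x 4) = ∑ x : Fin 5 → V, F1 r (x 0) (x 1) (x 2) (x 3) (x 4) :=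
    psum (F1 r) ![2, 0, 3, 1, 4] (by decide)
  have o8 : ∑ x : Fin 5 → V, F1 r (x 2) (x 0) (x 4) (x 1) (x 3) = ∑ x : Fin 5 → V, F1 r (x 0) (x 1) (x 2) (x 3) (x 4) :=
    psum (F1 r) ![2, 0, 4, 1, 3] (by decide)
  have o9 : ∑ x : Fin 5 → V, F1 r (x 3) (x 0) (x 1) (x 2) (x 4) = ∑ x : Fin 5 → V, F1 r (x 0) (x 1) (x 2) (x 3) (x 4) :=
    psum (F1 r) ![3, 0, 1, 2, 4] (by decide)
  have o10 : ∑ x : Fin 5 → V, F1 r (x 3) (x 0) (x 2) (x 1) (x 4) = ∑ x : Fin 5 → V, F1 r (x 0) (x 1) (x 2) (x 3) (x 4) :=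
    psum (F1 r) ![3, 0, 2, 1, 4] (by decide)
  have o11 : ∑ x : Fin 5 → V, F1 r (x 3) (x 0) (x 4) (x 1) (x 2) = ∑ x : Fin 5 → V, F1 r (x 0) (x 1) (x 2) (x 3) (x 4) :=
    psum (F1 r) ![3, 0, 4, 1, 2] (by decide)
  have o12 : ∑ x : Fin 5 → V, F1 r (x 4) (x 0) (x 1) (x 2) (x 3) = ∑ x : Fin 5 → V, F1 r (x 0) (x 1) (x 2) (x 3) (x 4) :=
    psum (F1 r) ![4, 0, 1, 2, 3] (by decide)
  have o13 : ∑ x : Fin 5 → V, F1 r (x 4) (x 0) (x 2) (x 1) (x 3) = ∑ x : Fin 5 → V, F1 r (x 0) (x 1) (x 2) (x 3) (x 4) :=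
    psum (F1 r) ![4, 0, 2, 1, 3] (by decide)
  have o14 : ∑ x : Fin 5 → V, F1 r (x 4) (x 0) (x 3) (x 1) (x 2) = ∑ x : Fin 5 → V, F1 r (x 0) (x 1) (x 2) (x 3) (x 4) :=
    psum (F1 r) ![4, 0, 3, 1, 2] (by decide)
  have r0 : ∑ x : Fin 5 → V, FR r (x 0) (x 1) (x 2) (x 3) (x 4) = ∑ x : Fin 5 → V, FR r (x 0) (x 1) (x 2) (x 3) (x 4) :=
    psum (FR r) ![0, 1, 2, 3, 4] (by decide)
  have r1 : ∑ x : Fin 5 → V, FR r (x 0) (x 2) (x 1) (x 3) (x 4) = ∑ x : Fin 5 → V, FR r (x 0) (x 1) (x 2) (x 3) (x 4) :=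
    psum (FR r) ![0, 2, 1, 3, 4] (by decide)
  have r2 : ∑ x : Fin 5 → V, FR r (x 0) (x 3) (x 1) (x 2) (x 4) = ∑ x : Fin 5 → V, FR r (x 0) (x 1) (x 2) (x 3) (x 4) :=
    psum (FR r) ![0, 3, 1, 2, 4] (by decide)
  have r3 : ∑ x : Fin 5 → V, FR r (x 0) (x 4) (x 1) (x 2) (x 3) = ∑ x : Fin 5 → V, FR r (x 0) (x 1) (x 2) (x 3) (x 4) :=
    psum (FR r) ![0, 4, 1, 2, 3] (by decide)
  have r4 : ∑ x : Fin 5 → V, FR r (x 1) (x 2) (x 0) (x 3) (x 4) = ∑ x : Fin 5 → V, FR r (x 0) (x 1) (x 2) (x 3) (x 4) :=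
    psum (FR r) ![1, 2, 0, 3, 4] (by decide)
  have r5 : ∑ x : Fin 5 → V, FR r (x 1) (x 3) (x 0) (x 2) (x 4) = ∑ x : Fin 5 → V, FR r (x 0) (x 1) (x 2) (x 3) (x 4) :=
    psum (FR r) ![1, 3, 0, 2, 4] (by decide)
  have r6 : ∑ x : Fin 5 → V, FR r (x 1) (x 4) (x 0) (x 2) (x 3) = ∑ x : Fin 5 → V, FR r (x 0) (x 1) (x 2) (x 3) (x 4) :=
    psum (FR r) ![1, 4, 0, 2, 3] (by decide)
  have r7 : ∑ x : Fin 5 → V, FR r (x 2) (x 3) (x 0) (x 1) (x 4) = ∑ x : Fin 5 → V, FR r (x 0) (x 1) (x 2) (x 3) (x 4) :=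
    psum (FR r) ![2, 3, 0, 1, 4] (by decide)
  have r8 : ∑ x : Fin 5 → V, FR r (x 2) (x 4) (x 0) (x 1) (x 3) = ∑ x : Fin 5 → V, FR r (x 0) (x 1) (x 2) (x 3) (x 4) :=
    psum (FR r) ![2, 4, 0, 1, 3] (by decide)
  have r9 : ∑ x : Fin 5 → V, FR r (x 3) (x 4) (x 0) (x 1) (x 2) = ∑ x : Fin 5 → V, FR r (x 0) (x 1) (x 2) (x 3) (x 4) :=
    psum (FR r) ![3, 4, 0, 1, 2] (by decide)
  have key := Finset.sum_le_sum (s := Finset.univ) (fun x _ => pw r h x)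
  simp only [Finset.sum_add_distrib, ← Finset.mul_sum, Finset.sum_const, Finset.card_univ,
    Fintype.card_fun, Fintype.card_fin, smul_eq_mul] at key
  rw [q0, q1, q2, q3, q4, q5, q6, q7, q8, q9, g0, g1, g2, g3, g4, g5, g6, g7, g8, g9, o0, o1, o2, o3, o4, o5, o6, o7, o8, o9, o10, o11, o12, o13, o14, r0, r1, r2, r3, r4, r5, r6, r7, r8, r9] at key
  linarith

theorem total2 [Fintype V] (h : Ori r) :
    10 * ∑ x : Fin 5 → V, FS r (x 0) (x 1) (x 2) (x 3) (x 4) ≤ 105553116266496 * Fintype.card V ^ 5 := by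
  have r0 : ∑ x : Fin 5 → V, FS r (x 0) (x 1) (x 2) (x 3) (x 4) = ∑ x : Fin 5 → V, FS r (x 0) (x 1) (x 2) (x 3) (x 4) :=
    psum (FS r) ![0, 1, 2, 3, 4] (by decide)
  have r1 : ∑ x : Fin 5 → V, FS r (x 0) (x 2) (x 1) (x 3) (x 4) = ∑ x : Fin 5 → V, FS r (x 0) (x 1) (x 2) (x 3) (x 4) :=
    psum (FS r) ![0, 2, 1, 3, 4] (by decide)
  have r2 : ∑ x : Fin 5 → V, FS r (x 0) (x 3) (x 1) (x 2) (x 4) = ∑ x : Fin 5 → V, FS r (x 0) (x 1) (x 2) (x 3) (x 4) :=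
    psum (FS r) ![0, 3, 1, 2, 4] (by decide)
  have r3 : ∑ x : Fin 5 → V, FS r (x 0) (x 4) (x 1) (x 2) (x 3) = ∑ x : Fin 5 → V, FS r (x 0) (x 1) (x 2) (x 3) (x 4) :=
    psum (FS r) ![0, 4, 1, 2, 3] (by decide)
  have r4 : ∑ x : Fin 5 → V, FS r (x 1) (x 2) (x 0) (x 3) (x 4) = ∑ x : Fin 5 → V, FS r (x 0) (x 1) (x 2) (x 3) (x 4) :=
    psum (FS r) ![1, 2, 0, 3, 4] (by decide)
  have r5 : ∑ x : Fin 5 → V, FS r (x 1) (x 3) (x 0) (x 2) (x 4) = ∑ x : Fin 5 → V, FS r (x 0) (x 1) (x 2) (x 3) (x 4) :=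
    psum (FS r) ![1, 3, 0, 2, 4] (by decide)
  have r6 : ∑ x : Fin 5 → V, FS r (x 1) (x 4) (x 0) (x 2) (x 3) = ∑ x : Fin 5 → V, FS r (x 0) (x 1) (x 2) (x 3) (x 4) :=
    psum (FS r) ![1, 4, 0, 2, 3] (by decide)
  have r7 : ∑ x : Fin 5 → V, FS r (x 2) (x 3) (x 0) (x 1) (x 4) = ∑ x : Fin 5 → V, FS r (x 0) (x 1) (x 2) (x 3) (x 4) :=
    psum (FS r) ![2, 3, 0, 1, 4] (by decide)
  have r8 : ∑ x : Fin 5 → V, FS r (x 2) (x 4) (x 0) (x 1) (x 3) = ∑ x : Fin 5 → V, FS r (x 0) (x 1) (x 2) (x 3) (x 4) :=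
    psum (FS r) ![2, 4, 0, 1, 3] (by decide)
  have r9 : ∑ x : Fin 5 → V, FS r (x 3) (x 4) (x 0) (x 1) (x 2) = ∑ x : Fin 5 → V, FS r (x 0) (x 1) (x 2) (x 3) (x 4) :=
    psum (FS r) ![3, 4, 0, 1, 2] (by decide)
  have key := Finset.sum_le_sum (s := Finset.univ) (fun x _ => pw2 r h x)
  simp only [Finset.sum_add_distrib, ← Finset.mul_sum, Finset.sum_const, Finset.card_univ,
    Fintype.card_fun, Fintype.card_fin, smul_eq_mul] at key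
  rw [r0, r1, r2, r3, r4, r5, r6, r7, r8, r9] at key
  linarith

end Pool.Agent.W163.P3.Cert
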